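import Mathlib

namespace Pool.Agent.Results.MP_b2ceab_nt.LargerNumber

/-- a and b have the same prime divisors. -/
def Sim (a b : ℕ) : Prop := ∀ p, p.Prime → (p ∣ a ↔ p ∣ b)

theorem sub_iff {p X : ℕ} (hX : 1 ≤ X) : p ∣ X - 1 ↔ (X : ZMod p) = 1 := by
  rw [← ZMod.natCast_eq_zero_iff, Nat.cast_sub hX, Nat.cast_one, sub_eq_zero]

theorem add_iff {p X : ℕ} : p ∣ X + 1 ↔ (X : ZMod p) = -1 := by
  rw [← ZMod.natCast_eq_zero_iff, Nat.cast_add, Nat.cast_one, add_eq_zero_iff_eq_neg]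

theorem stepA {x y : ℕ} (hx : 1 ≤ x) (hy : 1 ≤ y)
    (H : ∀ n, 1 ≤ n → Sim (x ^ 2 ^ n - 1) (y ^ 2 ^ n - 1)) {n p : ℕ} (hn : 1 ≤ n)
    (hp : p.Prime) (hd : p ∣ x ^ 2 ^ n + 1) : p ∣ y ^ 2 ^ n + 1 := by
  have : Fact p.Prime := ⟨hp⟩
  rw [add_iff] at hd ⊢
  push_cast at hd ⊢
  have h1 := H (n + 1) (by omega) p hp
  rw [sub_iff (Nat.one_le_pow _ _ hx), sub_iff (Nat.one_le_pow _ _ hy)] at h1
  have h0 := H n hn p hp
  rw [sub_iff (Nat.one_le_pow _ _ hx), sub_iff (Nat.one_le_pow _ _ hy)] at h0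
  push_cast at h0 h1
  rw [pow_succ, pow_mul, pow_mul, hd] at h1
  have h2 : ((y : ZMod p) ^ 2 ^ n) ^ 2 = 1 := h1.1 (by norm_num)
  have h2' : ((y : ZMod p) ^ 2 ^ n - 1) * ((y : ZMod p) ^ 2 ^ n + 1) = 0 := by
    linear_combination h2
  rcases mul_eq_zero.1 h2' with h | h
  · have h4 : (y : ZMod p) ^ 2 ^ n = 1 := sub_eq_zero.1 h
    have h3 := h0.2 h4
    rw [h4]
    exact h3.symm.trans hd
  · exact add_eq_zero_iff_eq_neg.1 h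

theorem rad_le {x y : ℕ} (hx : 1 ≤ x) (hy : 1 ≤ y)
    (H : ∀ n, 1 ≤ n → Sim (x ^ 2 ^ n - 1) (y ^ 2 ^ n - 1)) {n : ℕ} (hn : 1 ≤ n) :
    ∏ p ∈ (x ^ 2 ^ n + 1).primeFactors, p ∣ y ^ 2 ^ n + 1 := by
  apply Finset.prod_primes_dvd
  · intro p hp
    exact (Nat.prime_of_mem_primeFactors hp).prime
  · intro p hp
    exact stepA hx hy H hn (Nat.prime_of_mem_primeFactors hp) (Nat.dvd_of_mem_primeFactors hp)

theorem exists_sq {x y : ℕ} (hy : 1 ≤ y) (hyx : y < x)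
    (H : ∀ n, 1 ≤ n → Sim (x ^ 2 ^ n - 1) (y ^ 2 ^ n - 1)) {n : ℕ} (hn : 1 ≤ n) :
    ∃ p, p.Prime ∧ p ^ 2 ∣ x ^ 2 ^ n + 1 := by
  by_contra hcon
  push Not at hcon
  have hsq : Squarefree (x ^ 2 ^ n + 1) := by
    rw [Nat.squarefree_iff_prime_squarefree]
    intro p hp hd
    exact hcon p hp (by rw [sq]; exact hd)
  have h1 := rad_le (by omega) hy H hn
  rw [Nat.prod_primeFactors_of_squarefree hsq] at h1
  have h2 := Nat.le_of_dvd (by omega) h1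
  have h3 : y ^ 2 ^ n < x ^ 2 ^ n := Nat.pow_lt_pow_left hyx (by positivity)
  omega

theorem wief {x n p : ℕ} (hn : 1 ≤ n) (hp : p.Prime) (hd : p ^ 2 ∣ x ^ 2 ^ n + 1) :
    2 ^ (n + 1) ∣ p - 1 ∧ x ^ (p - 1) ≡ 1 [MOD p ^ 2] := by
  have : Fact p.Prime := ⟨hp⟩
  have hp2 : p ≠ 2 := by
    rintro rfl
    obtain ⟨m, rfl⟩ := Nat.exists_eq_add_of_le hn
    have e : x ^ 2 ^ (1 + m) = (x ^ 2 ^ m) ^ 2 := by
      rw [add_comm 1 m, pow_succ 2 m, pow_mul]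
    rw [e] at hd
    generalize x ^ 2 ^ m = z at hd
    have h4 : (z ^ 2 + 1) % 4 = 0 := Nat.mod_eq_zero_of_dvd (by simpa using hd)
    have h5 : z % 4 = 0 ∨ z % 4 = 1 ∨ z % 4 = 2 ∨ z % 4 = 3 := by omega
    rcases h5 with h | h | h | h <;> simp [Nat.add_mod, Nat.pow_mod, h] at h4
  have hdp : p ∣ x ^ 2 ^ n + 1 := (dvd_pow_self p (by norm_num)).trans hd
  have hne : (-1 : ZMod p) ≠ 1 := by
    intro h
    have h2 : ((2 : ℕ) : ZMod p) = 0 := by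
      push_cast
      linear_combination (-1 : ZMod p) * h
    rw [ZMod.natCast_eq_zero_iff] at h2
    exact hp2 ((Nat.prime_dvd_prime_iff_eq hp Nat.prime_two).1 h2)
  have hm : (x : ZMod p) ^ 2 ^ n = -1 := by
    have := add_iff.1 hdp
    exact_mod_cast this
  have hord : orderOf (x : ZMod p) = 2 ^ (n + 1) := by
    apply orderOf_eq_prime_pow
    · rw [hm]; exact hne
    · rw [pow_succ, pow_mul, hm]; norm_num
  have hx0 : (x : ZMod p) ≠ 0 := by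
    intro h
    rw [h, zero_pow (by positivity)] at hm
    have : (1 : ZMod p) = 0 := by linear_combination hm
    exact one_ne_zero this
  have hdiv : 2 ^ (n + 1) ∣ p - 1 := by
    rw [← hord]
    exact ZMod.orderOf_dvd_card_sub_one hx0
  refine ⟨hdiv, ?_⟩
  obtain ⟨c, hc⟩ := hdiv
  have h6 : (x : ZMod (p ^ 2)) ^ 2 ^ n = -1 := by
    have := add_iff.1 hd
    exact_mod_cast this
  rw [← ZMod.natCast_eq_natCast_iff]
  push_cast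
  have e2 : (x : ZMod (p ^ 2)) ^ 2 ^ (n + 1) = ((x : ZMod (p ^ 2)) ^ 2 ^ n) ^ 2 := by
    rw [pow_succ 2 n, pow_mul]
  rw [hc, pow_mul, e2, h6]
  norm_num

/-- The main result. -/
theorem result (x y : ℕ) (hy : 1 ≤ y) (hyx : y < x)
    (H : ∀ n, 1 ≤ n → Sim (x ^ 2 ^ n - 1) (y ^ 2 ^ n - 1)) :
    (∀ n, 1 ≤ n → ∏ p ∈ (x ^ 2 ^ n + 1).primeFactors, p ∣ y ^ 2 ^ n + 1) ∧
    (∀ n, 1 ≤ n → ∃ p, p.Prime ∧ p ^ 2 ∣ x ^ 2 ^ n + 1 ∧ 2 ^ (n + 1) ∣ p - 1 ∧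
      x ^ (p - 1) ≡ 1 [MOD p ^ 2]) ∧
    {p : ℕ | p.Prime ∧ x ^ (p - 1) ≡ 1 [MOD p ^ 2] ∧ ∃ k, orderOf (x : ZMod p) = 2 ^ k}.Infinite := by
  have h2 : ∀ n, 1 ≤ n → ∃ p, p.Prime ∧ p ^ 2 ∣ x ^ 2 ^ n + 1 ∧ 2 ^ (n + 1) ∣ p - 1 ∧
      x ^ (p - 1) ≡ 1 [MOD p ^ 2] := by
    intro n hn
    obtain ⟨p, hp, hd⟩ := exists_sq hy hyx H hn
    obtain ⟨h3, h4⟩ := wief hn hp hd
    exact ⟨p, hp, hd, h3, h4⟩
  refine ⟨fun n hn => rad_le (by omega) hy H hn, h2, ?_⟩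
  apply Set.infinite_of_forall_exists_gt
  intro N
  obtain ⟨p, hp, hd, h3, h4⟩ := h2 (N + 1) (by omega)
  refine ⟨p, ⟨hp, h4, ?_⟩, ?_⟩
  · have : Fact p.Prime := ⟨hp⟩
    have hdp : p ∣ x ^ 2 ^ (N + 1) + 1 := (dvd_pow_self p (by norm_num)).trans hd
    have hm : (x : ZMod p) ^ 2 ^ (N + 1) = -1 := by
      have := add_iff.1 hdp
      exact_mod_cast this
    have h5 : orderOf (x : ZMod p) ∣ 2 ^ (N + 2) := by
      apply orderOf_dvd_of_pow_eq_one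
      rw [pow_succ, pow_mul, hm]
      norm_num
    obtain ⟨k, _, hk⟩ := (Nat.dvd_prime_pow Nat.prime_two).1 h5
    exact ⟨k, hk⟩
  · have h6 := Nat.le_of_dvd (by have := hp.two_le; omega) h3
    have h7 : N + 1 + 1 < 2 ^ (N + 1 + 1) := Nat.lt_two_pow_self
    omega

end Pool.Agent.Results.MP_b2ceab_nt.LargerNumber
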