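import Pool.Agent.helper577_eps.Main

/-!
Q1 asks whether positive integers `x, y`, such that `x ^ (2 ^ n) - 1` and `y ^ (2 ^ n) - 1` have the same
prime divisors for every `n ≥ 1`, are equal. We show that the larger member of a counterexample lies in a
very sparse set: up to `X ≥ 2` there are at most `40 X ^ (2/3) log X` integers `x` for which some `y < x`
satisfies the condition for `n = 1` and `n = 2` only.

Proof. (1) Every prime divisor of `x ^ 4 - 1` divides `x ^ 2 - y ^ 2`. Hence the squarefree parts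
`t₁, t₂, t₃` of `x - 1, x + 1, x ^ 2 + 1` satisfy `t₁ t₂ t₃ < 8 x ^ 2`, where the product of the three numbers
is about `x ^ 4`.
(2) The solutions of `x ^ 2 + 1 = t d ^ 2` and of `x ^ 2 - 1 = m e ^ 2` at least double from one to the next, so at
most `A (log₂ X + 1)` integers `x ≤ X` have `t₃ ≤ A`, or `t₁ t₂ ≤ A`.
(3) The number of `x ≤ X` such that `d₁ ^ 2 ∣ x - 1`, `d₂ ^ 2 ∣ x + 1` with `E < d₁ d₂ ≤ Z` is at most
`(2 X / E + Z) (1 + log Z)`, as `d₁, d₂` determine `x` modulo `(d₁ d₂) ^ 2`.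
Take `A = Z ≈ X ^ (2/3)` and `E ≈ X ^ (1/3)`.
-/

set_option autoImplicit false

namespace Pool.Agent.Results.MP_b2ceab_nt.SparseExceptions

/-- `a` and `b` have the same prime divisors. -/
def SamePrimes (a b : ℕ) : Prop := ∀ p : ℕ, p.Prime → (p ∣ a ↔ p ∣ b)

/-- **Theorem.** For every `X ≥ 2` there are at most `40 X ^ (2/3) log X` integers `x ≤ X` such that for some
positive integer `y < x` the numbers `x ^ (2 ^ n) - 1` and `y ^ (2 ^ n) - 1` have the same prime divisors for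
`n = 1` and for `n = 2`. -/
theorem result (X : ℕ) (hX : 2 ≤ X) :
    (Set.ncard {x : ℕ | x ≤ X ∧ ∃ y : ℕ, 1 ≤ y ∧ y < x ∧
      ∀ n : ℕ, 1 ≤ n → n ≤ 2 → SamePrimes (x ^ (2 ^ n) - 1) (y ^ (2 ^ n) - 1)} : ℝ) ≤
      40 * (X : ℝ) ^ (2 / 3 : ℝ) * Real.log X := by
  have hfin : {x : ℕ | x ≤ X ∧ ∃ y : ℕ, 1 ≤ y ∧ y < x ∧
      ∀ n : ℕ, 1 ≤ n → n ≤ 2 → SamePrimes (x ^ (2 ^ n) - 1) (y ^ (2 ^ n) - 1)}.Finite :=
    (Set.finite_Iic X).subset fun x hx => hx.1
  rw [Set.ncard_eq_toFinset_card _ hfin]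
  refine Pool.Agent.Helper577Eps.count_bad X hX _ fun x hx => ?_
  rw [Set.Finite.mem_toFinset] at hx
  obtain ⟨hxX, y, hy, hyx, h⟩ := hx
  exact ⟨hxX, y, hy, hyx, h 1 le_rfl (by norm_num), h 2 (by norm_num) le_rfl⟩

end Pool.Agent.Results.MP_b2ceab_nt.SparseExceptions
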